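import Pool.Agent.Helper92.TW.C7
import Pool.Agent.Helper19.TW.C5b
import Pool.Agent.Helper47.BSD.Main

/-!
# Good primes and infinity (unramified case)
-/

set_option autoImplicit false
set_option linter.unusedSectionVars false
set_option linter.unusedVariables false

namespace Pool.Agent.Helper54.PT

open Polynomial Finset Pool.Agent.Helper47.BSD

section

variable {F : Type} [Field F] [Finite F] {ℓ : ℕ} [Fact ℓ.Prime] {ι : Type} [Fintype ι]
  [DecidableEq ι] {σ : Type} [Fintype σ] [DecidableEq σ] {a : ι → ℕ} {e : ι → F[X]}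
  {R : σ → Prm F} {i₁ i₂ : σ → ι} {N : ℕ} {lg : F → ZMod ℓ}

omit [Finite F] in
theorem c16_eq_of_dvd {P Q : Prm F} (h : Q.1 ∣ P.1) : Q = P := by
  apply Subtype.ext
  have h1 : Associated Q.1 P.1 := (Q.2.2.prime.irreducible).associated_of_dvd P.2.2 h
  exact eq_of_monic_of_associated Q.2.1 P.2.1 h1

theorem c16_root (K : Type) [Field K] [Algebra F K]
    (hs : ¬ ℓ ∣ ∑ i, a i) (ha : ∀ i, ¬ ℓ ∣ a i) (v : AbsoluteValue K ℝ)
    (hv : v.IsNontrivial) (e : ι → K) (hg : IsGood ℓ e v) (d : ι → Kˣ) (hd : d ∈ selmerSet ℓ a e)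
    (i : ι) : ∃ x : K, x ≠ 0 ∧ v (d i) = v x ^ ℓ := by
  obtain ⟨p, hp⟩ := CharP.exists F
  have hpp : p.Prime := (CharP.char_is_prime_or_zero F p).resolve_right (CharP.char_ne_zero_of_finite F p)
  have : CharP K p := charP_of_injective_algebraMap (algebraMap F K).injective p
  exact exists_root_of_good (K' := K) (Fact.out : ℓ.Prime) ha hs p hpp v hv hg hd i v (fun _ => rfl)

theorem c16_not_dvd (hS : Setup ℓ a e R i₁ i₂ N) (D : Finset (Prm F)) (Q : Prm F) (hQ : Q ∉ D)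
    (hQR : ∀ r, Q ≠ R r) (i j : ι) (hij : i ≠ j) : ¬ Q.1 ∣ (∏ P ∈ D, P.1) * (e i - e j) := by
  intro h
  have hp := Q.2.2.prime
  rcases hp.dvd_or_dvd h with h | h
  · obtain ⟨P, hP, h1⟩ := hp.exists_mem_finset_dvd h
    exact hQ (by rw [c16_eq_of_dvd h1]; exact hP)
  · rw [hS.fact i j hij] at h
    rcases hp.dvd_or_dvd h with h | h
    · have h2 : (e i).coeff N - (e j).coeff N ≠ 0 := sub_ne_zero.2 (hS.lead i j hij)
      exact hp.not_isUnit (isUnit_of_dvd_unit h (isUnit_C.2 (isUnit_iff_ne_zero.2 h2)))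
    · obtain ⟨r, _, h1⟩ := hp.exists_mem_finset_dvd h
      exact hQR r (c16_eq_of_dvd h1)

/-- C16: good primes -/
theorem selmer_good (hq : ℓ ∣ Nat.card F - 1) (hS : Setup ℓ a e R i₁ i₂ N) (D : Finset (Prm F))
    (hD : ∀ P ∈ D, ∀ r, P ≠ R r) (d : ι → (RatFunc F)ˣ) (hd : d ∈ selmerSet ℓ a (tw e D))
    (Q : Prm F) (hQ : Q ∉ D) (hQR : ∀ r, Q ≠ R r) (i : ι) :
    (ordK Q (d i : RatFunc F) : ZMod ℓ) = 0 := by
  obtain ⟨v, hv, hvQ⟩ := exists_absP Q
  have hℓ : ℓ.Prime := Fact.out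
  have hg : IsGood ℓ (tw e D) v := by
    refine ⟨1, 0, one_ne_zero, fun i => ?_, fun i j hij => ?_⟩
    · rw [one_pow, one_mul, sub_zero]
      by_cases h0 : tw e D i = 0
      · rw [h0, map_zero]; exact zero_le_one
      · rw [hvQ _ h0]
        have h1 : (∏ P ∈ D, P.1) * e i ≠ 0 := fun h => h0 (by rw [tw, h, map_zero])
        rw [tw, ordK_poly Q h1]
        exact zpow_le_one_of_nonpos₀ one_le_two (by simp)
    · rw [one_pow, one_mul]
      have h1 : tw e D i - tw e D j = algebraMap F[X] (RatFunc F) ((∏ P ∈ D, P.1) * (e i - e j)) := by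
        rw [tw, tw, ← map_sub, mul_sub]
      have h2 := c16_not_dvd hS D Q hQ hQR i j hij
      have h3 : (∏ P ∈ D, P.1) * (e i - e j) ≠ 0 := fun h => h2 (by rw [h]; exact dvd_zero _)
      have h4 : algebraMap F[X] (RatFunc F) ((∏ P ∈ D, P.1) * (e i - e j)) ≠ 0 := by
        rw [Ne, FaithfulSMul.algebraMap_eq_zero_iff]
        exact h3
      rw [h1, hvQ _ h4, ordK_poly Q h3, multiplicity_eq_zero.2 h2]
      simp
  obtain ⟨x, hx, hx'⟩ := c16_root (F := F) (RatFunc F) hS.hs hS.ha v hv (tw e D) hg d hd i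
  rw [hvQ _ (d i).ne_zero, hvQ _ hx, ← zpow_natCast, ← zpow_mul] at hx'
  have h5 := zpow_right_injective₀ (zero_lt_two' ℝ) (by norm_num : (2:ℝ) ≠ 1) hx'
  have h6 : ordK Q (d i : RatFunc F) = ordK Q x * ℓ := by linarith
  rw [h6]
  push_cast
  rw [ZMod.natCast_self, mul_zero]

/-- C19: infinity, unramified -/
theorem selmer_inf_good (hq : ℓ ∣ Nat.card F - 1) (hS : Setup ℓ a e R i₁ i₂ N)
    (D : Finset (Prm F)) (hn : ℓ ∣ ∑ P ∈ D, P.1.natDegree + N) (d : ι → (RatFunc F)ˣ)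
    (hd : d ∈ selmerSet ℓ a (tw e D)) (j : ι) :
    (((d j : RatFunc F).intDegree : ℤ) : ZMod ℓ) = 0 := by
  obtain ⟨v, hv, hvI⟩ := exists_absInf F
  have hℓ : ℓ.Prime := Fact.out
  obtain ⟨c, hc⟩ := hn
  have hDm : (∏ P ∈ D, P.1).Monic := monic_prod_of_monic _ _ fun P _ => P.2.1
  have hDd : (∏ P ∈ D, P.1).natDegree = ∑ P ∈ D, P.1.natDegree :=
    natDegree_prod_of_monic _ _ fun P _ => P.2.1
  have hX : (RatFunc.X : RatFunc F) ≠ 0 := RatFunc.X_ne_zero
  have hXd : ∀ m : ℕ, (((RatFunc.X : RatFunc F) ^ m)⁻¹).intDegree = -(m : ℤ) := by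
    intro m
    rw [RatFunc.intDegree_inv]
    congr 1
    have : (RatFunc.X : RatFunc F) ^ m = algebraMap F[X] (RatFunc F) (X ^ m) := by
      rw [map_pow, RatFunc.algebraMap_X]
    rw [this, RatFunc.intDegree_polynomial, natDegree_X_pow]
  have hval : ∀ f : F[X], f ≠ 0 → v ((((RatFunc.X : RatFunc F) ^ c)⁻¹) ^ ℓ *
      algebraMap F[X] (RatFunc F) f) = (2:ℝ) ^ ((f.natDegree : ℤ) - (ℓ * c : ℕ)) := by
    intro f hf
    have hf' : algebraMap F[X] (RatFunc F) f ≠ 0 := by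
      rw [Ne, FaithfulSMul.algebraMap_eq_zero_iff]
      exact hf
    have h1 : (((RatFunc.X : RatFunc F) ^ c)⁻¹) ^ ℓ = ((RatFunc.X : RatFunc F) ^ (ℓ * c))⁻¹ := by
      rw [inv_pow, ← pow_mul, mul_comm c ℓ]
    rw [h1, hvI _ (mul_ne_zero (inv_ne_zero (pow_ne_zero _ hX)) hf'),
      RatFunc.intDegree_mul (inv_ne_zero (pow_ne_zero _ hX)) hf', hXd, RatFunc.intDegree_polynomial]
    congr 1
    ring
  have hg : IsGood ℓ (tw e D) v := by
    refine ⟨((RatFunc.X : RatFunc F) ^ c)⁻¹, 0, inv_ne_zero (pow_ne_zero _ hX), fun i => ?_,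
      fun i j hij => ?_⟩
    · rw [sub_zero]
      by_cases h0 : (∏ P ∈ D, P.1) * e i = 0
      · rw [tw, h0, map_zero, mul_zero, map_zero]; exact zero_le_one
      · rw [tw, hval _ h0, ← hc]
        apply zpow_le_one_of_nonpos₀ one_le_two
        have h1 : ((∏ P ∈ D, P.1) * e i).natDegree ≤ ∑ P ∈ D, P.1.natDegree + N := by
          refine natDegree_mul_le.trans ?_
          rw [hDd]
          exact Nat.add_le_add_left (hS.deg i) _
        omega
    · have h1 : tw e D i - tw e D j = algebraMap F[X] (RatFunc F) ((∏ P ∈ D, P.1) * (e i - e j)) := by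
        rw [tw, tw, ← map_sub, mul_sub]
      have h2 : (e i - e j).coeff N ≠ 0 := by
        rw [coeff_sub]
        exact sub_ne_zero.2 (hS.lead i j hij)
      have h3 : (e i - e j).natDegree = N := by
        apply le_antisymm
        · exact (natDegree_sub_le _ _).trans (max_le (hS.deg i) (hS.deg j))
        · exact le_natDegree_of_ne_zero h2
      have h4 : e i - e j ≠ 0 := fun h => h2 (by rw [h, coeff_zero])
      have h5 : ((∏ P ∈ D, P.1) * (e i - e j)).natDegree = ∑ P ∈ D, P.1.natDegree + N := by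
        rw [hDm.natDegree_mul' h4, hDd, h3]
      rw [h1, hval _ (mul_ne_zero hDm.ne_zero h4), h5, ← hc]
      simp
  obtain ⟨x, hx, hx'⟩ := c16_root (F := F) (RatFunc F) hS.hs hS.ha v hv (tw e D) hg d hd j
  rw [hvI _ (d j).ne_zero, hvI _ hx, ← zpow_natCast, ← zpow_mul] at hx'
  have h5 := zpow_right_injective₀ (zero_lt_two' ℝ) (by norm_num : (2:ℝ) ≠ 1) hx'
  rw [h5]
  push_cast
  rw [ZMod.natCast_self, mul_zero]

end

end Pool.Agent.Helper54.PT
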