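import Pool.Agent.Helper19.TW.C5b
import Pool.Agent.Helper57.TW.C6
import Pool.Agent.Helper1.TW.C16C19
import Pool.Agent.Helper10.TW.C15
import Pool.Agent.Helper2.TW.C3a
import Pool.Agent.Helper99.TW.C9

/-!
# Selmer elements with the class of a torsion element (module C22)
-/

set_option autoImplicit false
set_option linter.unusedSectionVars false
set_option linter.unusedVariables false

namespace Pool.Agent.Helper54.PT

open Polynomial Finset Pool.Agent.Helper47.BSD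

section

variable {ℓ : ℕ} [Fact ℓ.Prime] {ι : Type} [Fintype ι] [DecidableEq ι]

/-- A logarithm-like function on a field. -/
def c22_Hom {K : Type} [Field K] (φ : K → ZMod ℓ) : Prop :=
  ∀ x y : K, x ≠ 0 → y ≠ 0 → φ (x * y) = φ x + φ y

theorem c22_one {K : Type} [Field K] {φ : K → ZMod ℓ} (h : c22_Hom φ) : φ 1 = 0 := by
  have h1 := h 1 1 one_ne_zero one_ne_zero
  rw [mul_one] at h1
  exact add_eq_left.1 h1.symm

theorem c22_inv {K : Type} [Field K] {φ : K → ZMod ℓ} (h : c22_Hom φ) {x : K} (hx : x ≠ 0) :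
    φ x⁻¹ = -φ x := by
  have h1 := h x x⁻¹ hx (inv_ne_zero hx)
  rw [mul_inv_cancel₀ hx, c22_one h] at h1
  exact (neg_eq_of_add_eq_zero_right h1.symm).symm

theorem c22_pow {K : Type} [Field K] {φ : K → ZMod ℓ} (h : c22_Hom φ) {x : K} (hx : x ≠ 0)
    (n : ℕ) : φ (x ^ n) = n * φ x := by
  induction n with
  | zero => rw [pow_zero, c22_one h, Nat.cast_zero, zero_mul]
  | succ n ih =>
    rw [pow_succ, h _ _ (pow_ne_zero _ hx) hx, ih]
    push_cast
    ring

theorem c22_prod {K : Type} [Field K] {φ : K → ZMod ℓ} (h : c22_Hom φ) {α : Type} (s : Finset α)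
    (f : α → K) (hf : ∀ i ∈ s, f i ≠ 0) : φ (∏ i ∈ s, f i) = ∑ i ∈ s, φ (f i) := by
  classical
  induction s using Finset.induction_on with
  | empty => rw [prod_empty, sum_empty, c22_one h]
  | insert x s hx ih =>
    rw [prod_insert hx, sum_insert hx, h _ _ (hf x (mem_insert_self _ _))
      (prod_ne_zero_iff.2 fun i hi => hf i (mem_insert_of_mem hi)),
      ih fun i hi => hf i (mem_insert_of_mem hi)]

theorem c22_tt_ne_zero {K : Type} [Field K] (a : ι → ℕ) (E : ι → K)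
    (hE : ∀ i j, i ≠ j → E i - E j ≠ 0) (i j : ι) : tt ℓ a E i j ≠ 0 := by
  unfold tt
  split_ifs with h
  · apply inv_ne_zero
    apply pow_ne_zero
    apply prod_ne_zero_iff.2
    intro m hm
    exact pow_ne_zero _ (hE i m (ne_of_mem_erase hm).symm)
  · exact hE i j (fun hh => h hh.symm)

theorem c22_phi {K : Type} [Field K] {φ : K → ZMod ℓ} (h : c22_Hom φ) (a : ι → ℕ) (E : ι → K)
    (hE : ∀ i j, i ≠ j → E i - E j ≠ 0) (g : ι → ι → ZMod ℓ)
    (hg : ∀ i m, i ≠ m → φ (E i - E m) = g i m) (hsym : ∀ i m, i ≠ m → g i m = g m i)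
    (ha : ∀ i, (a i : ZMod ℓ) ≠ 0) (w : ι → ZMod ℓ) (A : ZMod ℓ) (c : ι → ℕ)
    (hc : ∀ i, (c i : ZMod ℓ) = -(w i * a i * A⁻¹)) (j : ι) :
    φ (∏ i, tt ℓ a E i j ^ c i) = ∑ m, (a m : ZMod ℓ) * A⁻¹ * (w j - w m) * g j m := by
  rw [c22_prod h _ _ fun i _ => pow_ne_zero _ (c22_tt_ne_zero a E hE i j)]
  have h1 : ∀ i, φ (tt ℓ a E i j ^ c i) = (c i : ZMod ℓ) * φ (tt ℓ a E i j) := fun i =>
    c22_pow h (c22_tt_ne_zero a E hE i j) _
  rw [sum_congr rfl fun i _ => h1 i]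
  have h2 : ∀ i, i ≠ j → φ (tt ℓ a E i j) = g j i := by
    intro i hi
    unfold tt
    rw [if_neg (fun hh => hi hh.symm), hg i j hi, hsym i j hi]
  have h3 : φ (tt ℓ a E j j) = -((a j : ZMod ℓ)⁻¹ * ∑ m ∈ univ.erase j, (a m : ZMod ℓ) * g j m) := by
    unfold tt
    rw [if_pos rfl]
    have hne : ∏ m ∈ univ.erase j, (E j - E m) ^ a m ≠ 0 :=
      prod_ne_zero_iff.2 fun m hm => pow_ne_zero _ (hE j m (ne_of_mem_erase hm).symm)
    rw [c22_inv h (pow_ne_zero _ hne), c22_pow h hne,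
      c22_prod h _ _ fun m hm => pow_ne_zero _ (hE j m (ne_of_mem_erase hm).symm)]
    congr 1
    have h4 : ((inva ℓ (a j) : ℕ) : ZMod ℓ) = (a j : ZMod ℓ)⁻¹ := by
      unfold inva
      rw [ZMod.natCast_zmod_val]
    rw [h4]
    congr 1
    apply sum_congr rfl
    intro m hm
    rw [c22_pow h (hE j m (ne_of_mem_erase hm).symm), hg j m (ne_of_mem_erase hm).symm]
  rw [← add_sum_erase _ _ (mem_univ j), h3, ← add_sum_erase univ _ (mem_univ j)]
  have h5 : ∀ i ∈ univ.erase j, (c i : ZMod ℓ) * φ (tt ℓ a E i j) = (c i : ZMod ℓ) * g j i :=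
    fun i hi => by rw [h2 i (ne_of_mem_erase hi)]
  rw [sum_congr rfl h5, sub_self, mul_zero, zero_mul, zero_add, mul_sum, ← sum_neg_distrib,
    mul_sum, ← sum_add_distrib]
  apply sum_congr rfl
  intro m _
  rw [hc j, hc m]
  have := ha j
  field_simp
  ring

theorem c22_all {K : Type} [Field K] {φ : K → ZMod ℓ} (h : c22_Hom φ) (a : ι → ℕ) (E : ι → K)
    (hE : ∀ i j, i ≠ j → E i - E j ≠ 0) (g : ι → ι → ZMod ℓ)
    (hg : ∀ i m, i ≠ m → φ (E i - E m) = g i m) (hsym : ∀ i m, i ≠ m → g i m = g m i)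
    (ha : ∀ i, (a i : ZMod ℓ) ≠ 0) (w : ι → ZMod ℓ) (A : ZMod ℓ) (c : ι → ℕ)
    (hc : ∀ i, (c i : ZMod ℓ) = -(w i * a i * A⁻¹)) (d : ι → Kˣ) (i₀ : ι)
    (hd0 : ∑ i, (a i : ZMod ℓ) * φ (d i) = 0)
    (hj : ∀ j, j ≠ i₀ → φ (d j) = ∑ m, (a m : ZMod ℓ) * A⁻¹ * (w j - w m) * g j m) (j : ι) :
    φ (d j) = φ (∏ i, tt ℓ a E i j ^ c i) := by
  rw [c22_phi h a E hE g hg hsym ha w A c hc j]
  by_cases hji : j = i₀
  · subst hji
    set S : ι → ZMod ℓ := fun j => ∑ m, (a m : ZMod ℓ) * A⁻¹ * (w j - w m) * g j m with hS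
    have h1 : ∑ i, (a i : ZMod ℓ) * S i = 0 := by
      have h2 : ∑ i, (a i : ZMod ℓ) * S i = ∑ i, ∑ m,
          (a i : ZMod ℓ) * ((a m : ZMod ℓ) * A⁻¹ * (w i - w m) * g i m) :=
        sum_congr rfl fun i _ => by rw [hS, mul_sum]
      have h3 : ∑ i, (a i : ZMod ℓ) * S i = -∑ i, (a i : ZMod ℓ) * S i := by
        nth_rewrite 1 [h2]
        rw [sum_comm, h2, ← sum_neg_distrib]
        apply sum_congr rfl
        intro i _
        rw [← sum_neg_distrib]
        apply sum_congr rfl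
        intro m _
        by_cases him : i = m
        · subst him; ring
        · rw [hsym i m him]; ring
      -- antisymmetric double sum: compare with the sum over ordered pairs
      have h4 : ∑ i, (a i : ZMod ℓ) * S i = ∑ i, (∑ m, (a i : ZMod ℓ) * (a m : ZMod ℓ) * A⁻¹ * w i * g i m)
          - ∑ i, ∑ m, (a i : ZMod ℓ) * (a m : ZMod ℓ) * A⁻¹ * w m * g i m := by
        rw [h2, ← sum_sub_distrib]
        apply sum_congr rfl
        intro i _
        rw [← sum_sub_distrib]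
        apply sum_congr rfl
        intro m _
        ring
      have h5 : ∑ i, ∑ m, (a i : ZMod ℓ) * (a m : ZMod ℓ) * A⁻¹ * w m * g i m
          = ∑ i, ∑ m, (a i : ZMod ℓ) * (a m : ZMod ℓ) * A⁻¹ * w i * g i m := by
        rw [sum_comm]
        apply sum_congr rfl
        intro i _
        apply sum_congr rfl
        intro m _
        by_cases him : i = m
        · subst him; ring
        · rw [hsym i m him]; ring
      rw [h4, h5, sub_self]
    rw [← add_sum_erase _ _ (mem_univ j)] at hd0 h1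
    have h6 : ∑ i ∈ univ.erase j, (a i : ZMod ℓ) * φ (d i) = ∑ i ∈ univ.erase j, (a i : ZMod ℓ) * S i :=
      sum_congr rfl fun i hi => by rw [hj i (ne_of_mem_erase hi)]
    rw [h6] at hd0
    have h7 : (a j : ZMod ℓ) * φ (d j) = (a j : ZMod ℓ) * S j := by
      linear_combination hd0 - h1
    exact mul_left_cancel₀ (ha j) h7
  · exact hj j hji

end

section

variable {F : Type} [Field F] {ℓ : ℕ} [Fact ℓ.Prime] {ι : Type} [Fintype ι]
  [DecidableEq ι] {σ : Type} [Fintype σ] [DecidableEq σ] {a : ι → ℕ} {e : ι → F[X]}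
  {R : σ → Prm F} {i₁ i₂ : σ → ι} {N : ℕ} {lg : F → ZMod ℓ}

theorem c22_hom_ord (Q : Prm F) : c22_Hom (fun x : RatFunc F => (ordK Q x : ZMod ℓ)) := by
  intro x y hx hy
  simp only
  rw [ordK_mul Q hx hy]
  push_cast
  rfl

theorem c22_hom_lc (hlg : IsLog ℓ lg) : c22_Hom (fun x : RatFunc F => lg (lcK x)) := by
  intro x y hx hy
  simp only
  rw [lcK_mul hx hy, hlg.1 _ _ (lcK_ne_zero hx) (lcK_ne_zero hy)]

theorem c22_sub (D : Finset (Prm F)) (i j : ι) : tw e D i - tw e D j =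
    algebraMap F[X] (RatFunc F) ((∏ P ∈ D, P.1) * (e i - e j)) := by
  rw [tw, tw, ← map_sub, mul_sub]

theorem c22_amap_ne {f : F[X]} (hf : f ≠ 0) : algebraMap F[X] (RatFunc F) f ≠ 0 := by
  rw [Ne, FaithfulSMul.algebraMap_eq_zero_iff]
  exact hf

theorem c22_D_monic (D : Finset (Prm F)) : (∏ P ∈ D, P.1).Monic :=
  monic_prod_of_monic _ _ fun P _ => P.2.1

theorem c22_e_ne (hS : Setup ℓ a e R i₁ i₂ N) {i j : ι} (hij : i ≠ j) : e i - e j ≠ 0 := by
  intro h
  have h1 : (e i - e j).coeff N = 0 := by rw [h, coeff_zero]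
  rw [coeff_sub] at h1
  exact hS.lead i j hij (sub_eq_zero.1 h1)

theorem c22_sub_ne (hS : Setup ℓ a e R i₁ i₂ N) (D : Finset (Prm F)) {i j : ι} (hij : i ≠ j) :
    tw e D i - tw e D j ≠ 0 := by
  rw [c22_sub]
  exact c22_amap_ne (mul_ne_zero (c22_D_monic D).ne_zero (c22_e_ne hS hij))

/-- the order of `E i - E m` -/
theorem c22_ord (hS : Setup ℓ a e R i₁ i₂ N) (D : Finset (Prm F)) (Q : Prm F) {i j : ι}
    (hij : i ≠ j) : (ordK Q (tw e D i - tw e D j) : ZMod ℓ) = (∑ P ∈ D, if Q = P then 1 else 0) +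
      ∑ r ∈ univ.filter (fun r => s(i₁ r, i₂ r) = s(i, j)), if Q = R r then 1 else 0 := by
  have hc : (e i).coeff N - (e j).coeff N ≠ 0 := sub_ne_zero.2 (hS.lead i j hij)
  have hφ : c22_Hom (fun x : RatFunc F => (ordK Q x : ZMod ℓ)) := c22_hom_ord Q
  have hRm : (∏ r ∈ univ.filter (fun r => s(i₁ r, i₂ r) = s(i, j)), (R r).1).Monic :=
    monic_prod_of_monic _ _ fun r _ => (R r).2.1
  have e1 : tw e D i - tw e D j = (∏ P ∈ D, algebraMap F[X] (RatFunc F) P.1) *
      (algebraMap F[X] (RatFunc F) (C ((e i).coeff N - (e j).coeff N)) *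
        ∏ r ∈ univ.filter (fun r => s(i₁ r, i₂ r) = s(i, j)),
          algebraMap F[X] (RatFunc F) (R r).1) := by
    rw [c22_sub, hS.fact i j hij, map_mul, map_mul, map_prod, map_prod]
  have n1 : ∀ P : Prm F, algebraMap F[X] (RatFunc F) P.1 ≠ 0 := fun P => c22_amap_ne P.2.1.ne_zero
  have n2 : algebraMap F[X] (RatFunc F) (C ((e i).coeff N - (e j).coeff N)) ≠ 0 :=
    c22_amap_ne (C_ne_zero.2 hc)
  have hpr : ∀ P : Prm F, (ordK Q (algebraMap F[X] (RatFunc F) P.1) : ZMod ℓ)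
      = if Q = P then 1 else 0 := by
    intro P
    rw [ordK_prime]
    split_ifs <;> simp
  have s1 := hφ _ _ (prod_ne_zero_iff.2 fun P (_ : P ∈ D) => n1 P) (mul_ne_zero n2
    (prod_ne_zero_iff.2 fun r (_ : r ∈ univ.filter (fun r => s(i₁ r, i₂ r) = s(i, j))) => n1 (R r)))
  have s2 := hφ _ _ n2 (prod_ne_zero_iff.2
    fun r (_ : r ∈ univ.filter (fun r => s(i₁ r, i₂ r) = s(i, j))) => n1 (R r))
  have s3 := c22_prod hφ D (fun P => algebraMap F[X] (RatFunc F) P.1) fun P _ => n1 P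
  have s4 := c22_prod hφ (univ.filter (fun r => s(i₁ r, i₂ r) = s(i, j)))
    (fun r => algebraMap F[X] (RatFunc F) (R r).1) fun r _ => n1 (R r)
  simp only at s1 s2 s3 s4
  rw [e1, s1, s2, s3, s4, ordK_const Q hc, sum_congr rfl fun P _ => hpr P,
    sum_congr rfl fun r _ => hpr (R r), Int.cast_zero, zero_add]

/-- the leading coefficient of `E i - E m` -/
theorem c22_lc (hS : Setup ℓ a e R i₁ i₂ N) (D : Finset (Prm F)) {i j : ι}
    (hij : i ≠ j) : lcK (tw e D i - tw e D j) = (e i).coeff N - (e j).coeff N := by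
  have hRm : (∏ r ∈ univ.filter (fun r => s(i₁ r, i₂ r) = s(i, j)), (R r).1).Monic :=
    monic_prod_of_monic _ _ fun r _ => (R r).2.1
  rw [c22_sub, hS.fact i j hij, lcK_poly, leadingCoeff_mul, leadingCoeff_mul,
    (c22_D_monic D).leadingCoeff, hRm.leadingCoeff, leadingCoeff_C, one_mul, mul_one]

variable [Finite F]

/-- C22 with C15 and C16 as hypotheses -/
theorem selmer_of_tor_aux (hlg : IsLog ℓ lg) (hm : lg (-1) = 0)
    (hS : Setup ℓ a e R i₁ i₂ N) (i₀ : ι) (D : Finset (Prm F))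
    (hD : ∀ P ∈ D, ∀ r, P ≠ R r) (d : ι → (RatFunc F)ˣ)
    (h15 : ∀ Q : Prm F, ∑ i, (a i : ZMod ℓ) * (ordK Q (d i) : ZMod ℓ) = 0)
    (h15' : ∑ i, (a i : ZMod ℓ) * lg (lcK (d i : RatFunc F)) = 0)
    (h16 : ∀ Q : Prm F, Q ∉ D → (∀ r, Q ≠ R r) → ∀ i, (ordK Q (d i : RatFunc F) : ZMod ℓ) = 0)
    (v₀ : {j : ι // j ≠ i₀} → ZMod ℓ)
    (hb : ∀ r, ∀ j : {j : ι // j ≠ i₀}, (ordK (R r) (d j.1 : RatFunc F) : ZMod ℓ) =
      tauX a i₁ i₂ (lglE lg e N) (ext a i₀ v₀) j.1 (some r))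
    (hb' : ∀ j : {j : ι // j ≠ i₀}, lg (lcK (d j.1 : RatFunc F)) =
      tauX a i₁ i₂ (lglE lg e N) (ext a i₀ v₀) j.1 none)
    (hv : ∀ P ∈ D, ∀ j : {j : ι // j ≠ i₀}, (ordK P (d j.1 : RatFunc F) : ZMod ℓ) = v₀ j) :
    ∃ (c : ι → ℕ) (x : ι → RatFunc F), ∀ j, (d j : RatFunc F) =
      (∏ i, tt ℓ a (tw e D) i j ^ c i) * x j ^ ℓ := by
  have ha : ∀ i, (a i : ZMod ℓ) ≠ 0 := fun i h => hS.ha i ((ZMod.natCast_eq_zero_iff _ _).1 h)
  have hA : asum ℓ a ≠ 0 := by
    unfold asum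
    intro h
    apply hS.hs
    rw [← ZMod.natCast_eq_zero_iff]
    push_cast
    exact h
  set w : ι → ZMod ℓ := ext a i₀ v₀ with hw
  have hwj : ∀ j : {j : ι // j ≠ i₀}, w j.1 = v₀ j := by
    intro j
    rw [hw, ext, dif_neg j.2]
  have hsumw : ∑ m, (a m : ZMod ℓ) * w m = 0 := by
    rw [← add_sum_erase _ _ (mem_univ i₀)]
    have h1 : w i₀ = -((a i₀ : ZMod ℓ)⁻¹ * ∑ j : {j : ι // j ≠ i₀}, (a j.1 : ZMod ℓ) * v₀ j) := by
      rw [hw, ext, dif_pos rfl]
    have h2 : ∑ m ∈ univ.erase i₀, (a m : ZMod ℓ) * w m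
        = ∑ j : {j : ι // j ≠ i₀}, (a j.1 : ZMod ℓ) * v₀ j := by
      rw [sum_subtype (univ.erase i₀) (p := fun j => j ≠ i₀) (by simp)
        (fun m => (a m : ZMod ℓ) * w m)]
      exact sum_congr rfl fun j _ => by rw [hwj j]
    rw [h1, h2]
    have := ha i₀
    field_simp
    ring
  let c : ι → ℕ := fun i => (-(w i * a i * (asum ℓ a)⁻¹)).val
  have hc : ∀ i, (c i : ZMod ℓ) = -(w i * a i * (asum ℓ a)⁻¹) := fun i => ZMod.natCast_zmod_val _
  have hE : ∀ i j, i ≠ j → tw e D i - tw e D j ≠ 0 := fun i j hij => c22_sub_ne hS D hij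
  have ht0 : ∀ j, ∏ i, tt ℓ a (tw e D) i j ^ c i ≠ 0 := fun j =>
    prod_ne_zero_iff.2 fun i _ => pow_ne_zero _ (c22_tt_ne_zero a _ hE i j)
  -- orders
  have hord : ∀ (Q : Prm F) (j : ι), (ordK Q (d j : RatFunc F) : ZMod ℓ)
      = (ordK Q (∏ i, tt ℓ a (tw e D) i j ^ c i) : ZMod ℓ) := by
    intro Q j
    refine c22_all (c22_hom_ord Q) a (tw e D) hE (fun i j => (∑ P ∈ D, if Q = P then 1 else 0) +
      ∑ r ∈ univ.filter (fun r => s(i₁ r, i₂ r) = s(i, j)), if Q = R r then 1 else 0)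
      (fun i m him => c22_ord hS D Q him) (fun i m _ => by rw [Sym2.eq_swap]) ha w (asum ℓ a) c hc
      d i₀ (h15 Q) ?_ j
    intro j hj
    by_cases hQD : Q ∈ D
    · rw [hv Q hQD ⟨j, hj⟩, ← hwj ⟨j, hj⟩]
      have h1 : (∑ P ∈ D, if Q = P then (1 : ZMod ℓ) else 0) = 1 := by
        rw [sum_ite_eq, if_pos hQD]
      have h2 : ∀ m, (∑ r ∈ univ.filter (fun r => s(i₁ r, i₂ r) = s(j, m)),
          if Q = R r then (1 : ZMod ℓ) else 0) = 0 := fun m =>
        sum_eq_zero fun r _ => if_neg (hD Q hQD r)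
      simp only [h1, h2, add_zero, mul_one]
      have h3 : ∀ m, (a m : ZMod ℓ) * (asum ℓ a)⁻¹ * (w j - w m)
          = (asum ℓ a)⁻¹ * w j * a m - (asum ℓ a)⁻¹ * (a m * w m) := fun m => by ring
      simp only [h3]
      rw [sum_sub_distrib, ← mul_sum, ← mul_sum, hsumw]
      change w j = (asum ℓ a)⁻¹ * w j * asum ℓ a - _
      field_simp
      ring
    · have h1 : (∑ P ∈ D, if Q = P then (1 : ZMod ℓ) else 0) = 0 := by
        rw [sum_ite_eq, if_neg hQD]
      simp only [h1, zero_add]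
      by_cases hQR : ∃ r, Q = R r
      · obtain ⟨r₀, rfl⟩ := hQR
        rw [hb r₀ ⟨j, hj⟩]
        have h2 : ∀ m, (∑ r ∈ univ.filter (fun r => s(i₁ r, i₂ r) = s(j, m)),
            if R r₀ = R r then (1 : ZMod ℓ) else 0) = if s(i₁ r₀, i₂ r₀) = s(j, m) then 1 else 0 := by
          intro m
          have h3 : ∀ r, (if R r₀ = R r then (1 : ZMod ℓ) else 0) = if r₀ = r then 1 else 0 := by
            intro r
            by_cases h : r₀ = r
            · rw [if_pos h, if_pos (by rw [h])]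
            · rw [if_neg h, if_neg fun hh => h (hS.inj hh)]
          simp only [h3, sum_ite_eq, mem_filter, mem_univ, true_and]
        simp only [h2, tauX]
        have hne := hS.ne r₀
        by_cases hj1 : j = i₁ r₀
        · rw [if_pos hj1, sum_eq_single (i₂ r₀)]
          · rw [if_pos (by rw [hj1]), mul_one, hj1]
          · intro m _ hm
            rw [if_neg, mul_zero]
            intro hh
            rw [Sym2.eq_iff] at hh
            rcases hh with ⟨_, h⟩ | ⟨_, h⟩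
            · exact hm h.symm
            · exact hne (hj1.symm.trans h.symm)
          · intro h; exact absurd (mem_univ _) h
        · rw [if_neg hj1]
          by_cases hj2 : j = i₂ r₀
          · rw [if_pos hj2, sum_eq_single (i₁ r₀)]
            · rw [if_pos (by rw [hj2, Sym2.eq_swap]), mul_one, hj2]
            · intro m _ hm
              rw [if_neg, mul_zero]
              intro hh
              rw [Sym2.eq_iff] at hh
              rcases hh with ⟨h, _⟩ | ⟨h, _⟩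
              · exact hj1 h.symm
              · exact hm h.symm
            · intro h; exact absurd (mem_univ _) h
          · rw [if_neg hj2, sum_eq_zero]
            intro m _
            rw [if_neg, mul_zero]
            intro hh
            rw [Sym2.eq_iff] at hh
            rcases hh with ⟨h, _⟩ | ⟨_, h⟩
            · exact hj1 h.symm
            · exact hj2 h.symm
      · rw [h16 Q hQD (fun r hr => hQR ⟨r, hr⟩) j, sum_eq_zero]
        intro m _
        rw [sum_eq_zero, mul_zero]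
        intro r _
        exact if_neg fun hr => hQR ⟨r, hr⟩
  -- leading coefficients
  have hsyml : ∀ i m, i ≠ m → lglE lg e N i m = lglE lg e N m i := by
    intro i m him
    unfold lglE
    have h1 : (e i).coeff N - (e m).coeff N = -1 * ((e m).coeff N - (e i).coeff N) := by ring
    rw [h1, hlg.1 _ _ (neg_ne_zero.2 one_ne_zero) (sub_ne_zero.2 (hS.lead m i him.symm)), hm,
      zero_add]
  have hlc : ∀ j : ι, lg (lcK (d j : RatFunc F)) = lg (lcK (∏ i, tt ℓ a (tw e D) i j ^ c i)) := by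
    intro j
    refine c22_all (c22_hom_lc hlg) a (tw e D) hE (fun i j => lglE lg e N i j)
      (fun i m him => by rw [c22_lc hS D him]; rfl) hsyml ha w (asum ℓ a) c hc
      d i₀ h15' ?_ j
    intro j hj
    rw [hb' ⟨j, hj⟩]
    simp only [tauX]
    apply sum_congr rfl
    intro m _
    by_cases hjm : j = m
    · subst hjm; ring
    · rw [hsyml j m hjm]
  -- conclusion
  have hfin : ∀ j, ∃ x : RatFunc F, (d j : RatFunc F) = (∏ i, tt ℓ a (tw e D) i j ^ c i) * x ^ ℓ := by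
    intro j
    have h0 : (d j : RatFunc F) ≠ 0 := (d j).ne_zero
    have h1 : (d j : RatFunc F) * (∏ i, tt ℓ a (tw e D) i j ^ c i)⁻¹ ≠ 0 :=
      mul_ne_zero h0 (inv_ne_zero (ht0 j))
    obtain ⟨y, hy⟩ := exists_pow_of_class hlg h1 (fun Q => by
      rw [← ZMod.intCast_zmod_eq_zero_iff_dvd]
      have h2 := c22_hom_ord (ℓ := ℓ) Q _ _ h0 (inv_ne_zero (ht0 j))
      simp only at h2
      have h3 := c22_inv (c22_hom_ord (ℓ := ℓ) Q) (ht0 j)
      rw [h2, h3, hord Q j]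
      ring) (by
      have h2 := c22_hom_lc hlg _ _ h0 (inv_ne_zero (ht0 j))
      simp only at h2
      have h3 := c22_inv (c22_hom_lc hlg) (ht0 j)
      rw [h2, h3, hlc j]
      ring)
    refine ⟨y, ?_⟩
    rw [← hy]
    field_simp [ht0 j]
  choose x hx using hfin
  exact ⟨c, x, hx⟩

/-- C22: Selmer elements with the class of a torsion element (uses C5, C6, C15, C16) -/
theorem selmer_of_tor (hq : ℓ ∣ Nat.card F - 1) (hlg : IsLog ℓ lg) (hm : lg (-1) = 0)
    (hrec : ∀ P Q : Prm F, P ≠ Q → sy lg Q.1 P.1 = sy lg P.1 Q.1)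
    (hS : Setup ℓ a e R i₁ i₂ N) (i₀ : ι) (D : Finset (pd lg hrec R).P) (d : ι → (RatFunc F)ˣ)
    (hd : d ∈ selmerSet ℓ a (tw e (und lg hrec R D))) (v₀ : {j : ι // j ≠ i₀} → ZMod ℓ)
    (h : (bcl lg R i₀ d, vcl lg hrec R i₀ D d) =
      tor (pd lg hrec R) (tau a i₀ i₁ i₂ (lglE lg e N)) D v₀) :
    ∃ (c : ι → ℕ) (x : ι → RatFunc F), ∀ j, (d j : RatFunc F) =
      (∏ i, tt ℓ a (tw e (und lg hrec R D)) i j ^ c i) * x j ^ ℓ := by
  have hD : ∀ P ∈ und lg hrec R D, ∀ r, P ≠ R r := by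
    intro P hP r
    rw [und, mem_map] at hP
    obtain ⟨P', _, rfl⟩ := hP
    exact P'.2 r
  obtain ⟨h15, h15'⟩ := selmer_rel_aux (a := a) (e := e) (lg := lg) (fun h => prod_pow_of_mem h)
    (fun Q _ _ hx hy => ordK_mul Q hx hy) (fun hx => lcK_ne_zero hx) (fun hx hy => lcK_mul hx hy)
    exists_absP (exists_absInf F) (fun P v hv _ hx h => class_of_pow_absP hlg P v hv hx h)
    (fun v hv _ hx h => class_of_pow_absInf hlg v hv hx h) hlg (und lg hrec R D) d hd
  rw [tor, Prod.mk.injEq] at h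
  obtain ⟨hb, hv⟩ := h
  refine selmer_of_tor_aux hlg hm hS i₀ (und lg hrec R D) hD d h15 h15'
    (fun Q hQ hQR i => selmer_good hq hS _ hD d hd Q hQ hQR i) v₀ ?_ ?_ ?_
  · intro r j
    exact congrFun (congrFun hb (some r)) j
  · intro j
    exact congrFun (congrFun hb none) j
  · intro P hP j
    rw [und, mem_map] at hP
    obtain ⟨P', hP', rfl⟩ := hP
    exact congrFun (congrFun hv ⟨P', hP'⟩) j

end

end Pool.Agent.Helper54.PT
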