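import Pool.Agent.Helper31.TW.St3

set_option autoImplicit false

/-!
Project TW (MP_434a84_lc), module GEO.
-/

namespace Pool.Agent.Helper1.TW

open Pool.Agent.Helper31.TW

private theorem geo_neg {n : ℕ} (α : Fin n → ℤ) (t : Fin n → ℕ) : frm (-α) t = - frm α t := by
  simp [frm]

private theorem geo_lin {n : ℕ} (α β : Fin n → ℤ) (a b : ℤ) (t : Fin n → ℕ) :
    frm (fun i => a * α i + b * β i) t = a * frm α t + b * frm β t := by
  simp only [frm, Finset.mul_sum, ← Finset.sum_add_distrib]
  exact Finset.sum_congr rfl fun i _ => by ring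

private theorem geo_nonneg {n : ℕ} (ν : Fin n → ℤ) (t : Fin n → ℕ) (h : ∀ i, 0 ≤ ν i) :
    0 ≤ frm ν t :=
  Finset.sum_nonneg fun i _ => mul_nonneg (h i) (by positivity)

private theorem geo_ge {n : ℕ} (ν : Fin n → ℤ) (t : Fin n → ℕ) (h : ∀ i, 0 ≤ ν i) (j : Fin n)
    (hj : 0 < ν j) : (t j : ℤ) ≤ frm ν t := by
  have h1 : ν j * (t j : ℤ) ≤ frm ν t :=
    Finset.single_le_sum (f := fun i => ν i * (t i : ℤ))
      (fun i _ => mul_nonneg (h i) (by positivity)) (Finset.mem_univ j)
  have h2 : (t j : ℤ) ≤ ν j * (t j : ℤ) := le_mul_of_one_le_left (by positivity) hj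
  exact h2.trans h1

private theorem geo_const {n : ℕ} (I : Finset (Fin n)) (K : ℕ) (α : Fin n → ℤ)
    (h0 : ∀ i, i ∉ I → α i = 0) (h : ∀ i, 0 ≤ α i) (x y : Fin n → ℕ) (hx : ∀ i ∈ I, K ≤ x i)
    (hy : ∀ i ∈ I, K ≤ y i) : clip K (frm α x) = clip K (frm α y) := by
  by_cases hz : ∃ j, 0 < α j
  · obtain ⟨j, hj⟩ := hz
    have hjI : j ∈ I := by
      by_contra hn
      rw [h0 j hn] at hj
      exact lt_irrefl _ hj
    have e1 := geo_ge α x h j hj
    have e2 := geo_ge α y h j hj
    have e3 := hx j hjI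
    have e4 := hy j hjI
    simp only [clip]
    omega
  · push Not at hz
    have hz' : α = 0 := funext fun i => le_antisymm (hz i) (h i)
    subst hz'
    simp [frm]

private theorem geo_const' {n : ℕ} (I : Finset (Fin n)) (K : ℕ) (α : Fin n → ℤ)
    (h0 : ∀ i, i ∉ I → α i = 0) (h : ¬ ((∃ i, 0 < α i) ∧ ∃ i, α i < 0)) (x y : Fin n → ℕ)
    (hx : ∀ i ∈ I, K ≤ x i) (hy : ∀ i ∈ I, K ≤ y i) :
    clip K (frm α x) = clip K (frm α y) := by
  by_cases h1 : ∃ i, 0 < α i
  · refine geo_const I K α h0 (fun i => ?_) x y hx hy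
    by_contra hn
    exact h ⟨h1, i, not_le.1 hn⟩
  · have h2 := geo_const I K (-α) (fun i hi => by simp [h0 i hi])
      (fun i => by
        have h3 : ¬ 0 < α i := fun hh => h1 ⟨i, hh⟩
        simp only [Pi.neg_apply]
        omega) x y hx hy
    rw [geo_neg, geo_neg] at h2
    simp only [clip] at h2 ⊢
    omega

theorem hGEO (hPEN : StPEN) : StGEO := by
  classical
  intro n I E K hK hoff hcr
  -- the mixed forms
  set E' : Finset (Fin n → ℤ) := E.filter fun α => (∃ i, 0 < α i) ∧ ∃ i, α i < 0 with hE'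
  have hE'E : ∀ α ∈ E', α ∈ E := fun α h => (Finset.mem_filter.1 h).1
  have hmix : ∀ α ∈ E', (∃ i, 0 < α i) ∧ ∃ i, α i < 0 := fun α h => (Finset.mem_filter.1 h).2
  -- the pencils
  have hpen : ∀ α β : Fin n → ℤ, ∃ ab : ℤ × ℤ, α ∈ E' → β ∈ E' → α ≠ β →
      ab.1 ≠ 0 ∧ ab.2 ≠ 0 ∧ (∀ i, 0 ≤ ab.1 * α i + ab.2 * β i) ∧
        ∃ i ∈ I, 0 < ab.1 * α i + ab.2 * β i := by
    intro α β
    by_cases hh : α ∈ E' ∧ β ∈ E' ∧ α ≠ β
    swap
    · exact ⟨(0, 0), fun h1 h2 h3 => absurd ⟨h1, h2, h3⟩ hh⟩
    obtain ⟨hα, hβ, hne⟩ := hh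
    obtain ⟨a, b, h1, i, hi⟩ := hPEN n α β (by
      intro y hy hz
      refine hcr α (hE'E α hα) β (hE'E β hβ) hne
        ⟨fun i => if i ∈ I then (y i).toNat else 0, ?_, ?_, ?_⟩
      · intro i
        have hyi : 0 < y i := hy i
        by_cases hiI : i ∈ I
        · simp only [hiI, if_true, true_iff]
          omega
        · simp [hiI]
      · rw [← hz.1]
        refine Finset.sum_congr rfl fun i _ => ?_
        have hyi : 0 < y i := hy i
        by_cases hiI : i ∈ I
        · simp only [hiI, if_true]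
          rw [Int.toNat_of_nonneg hyi.le]
        · rw [hoff α (hE'E α hα) i hiI]
          simp
      · rw [← hz.2]
        refine Finset.sum_congr rfl fun i _ => ?_
        have hyi : 0 < y i := hy i
        by_cases hiI : i ∈ I
        · simp only [hiI, if_true]
          rw [Int.toNat_of_nonneg hyi.le]
        · rw [hoff β (hE'E β hβ) i hiI]
          simp)
    refine ⟨(a, b), fun _ _ _ => ⟨?_, ?_, h1, i, ?_, hi⟩⟩
    · intro ha
      simp only at ha
      subst ha
      obtain ⟨⟨p, hp⟩, q, hq⟩ := hmix β hβ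
      have e1 := h1 p
      have e2 := h1 q
      simp only [zero_mul, zero_add] at e1 e2 hi
      have b1 : 0 ≤ b := nonneg_of_mul_nonneg_left e1 hp
      have b2 : b ≤ 0 := by
        by_contra hb
        exact absurd e2 (not_le.2 (mul_neg_of_pos_of_neg (not_le.1 hb) hq))
      have b3 : b = 0 := le_antisymm b2 b1
      rw [b3, zero_mul] at hi
      exact lt_irrefl _ hi
    · intro hb
      simp only at hb
      subst hb
      obtain ⟨⟨p, hp⟩, q, hq⟩ := hmix α hα
      have e1 := h1 p
      have e2 := h1 q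
      simp only [zero_mul, add_zero] at e1 e2 hi
      have b1 : 0 ≤ a := nonneg_of_mul_nonneg_left e1 hp
      have b2 : a ≤ 0 := by
        by_contra hb
        exact absurd e2 (not_le.2 (mul_neg_of_pos_of_neg (not_le.1 hb) hq))
      have b3 : a = 0 := le_antisymm b2 b1
      rw [b3, zero_mul] at hi
      exact lt_irrefl _ hi
    · by_contra hn
      rw [hoff α (hE'E α hα) i hn, hoff β (hE'E β hβ) i hn] at hi
      simp at hi
  choose ab hab using hpen
  -- the bound
  set K2 : ℕ := K + 1 + ∑ p ∈ E' ×ˢ E', ((ab p.1 p.2).1.natAbs + (ab p.1 p.2).2.natAbs) * K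
    with hK2
  have hbd : ∀ α ∈ E', ∀ β ∈ E', α ≠ β → ∀ x : Fin n → ℕ, (∀ i ∈ I, K2 ≤ x i) →
      (|(ab α β).1| + |(ab α β).2|) * (K : ℤ) < (ab α β).1 * frm α x + (ab α β).2 * frm β x := by
    intro α hα β hβ hne x hx
    obtain ⟨_, _, h1, i, hi, h2⟩ := hab α β hα hβ hne
    have e1 := geo_ge (fun i => (ab α β).1 * α i + (ab α β).2 * β i) x h1 i h2
    rw [geo_lin] at e1
    have hm : (α, β) ∈ E' ×ˢ E' := Finset.mk_mem_product hα hβ
    have e2 : ((ab α β).1.natAbs + (ab α β).2.natAbs) * K ≤
        ∑ p ∈ E' ×ˢ E', ((ab p.1 p.2).1.natAbs + (ab p.1 p.2).2.natAbs) * K :=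
      Finset.single_le_sum (f := fun p : (Fin n → ℤ) × (Fin n → ℤ) =>
        ((ab p.1 p.2).1.natAbs + (ab p.1 p.2).2.natAbs) * K) (fun _ _ => Nat.zero_le _) hm
    have e3 : ((ab α β).1.natAbs + (ab α β).2.natAbs) * K < K2 := by omega
    have e4 : ((((ab α β).1.natAbs + (ab α β).2.natAbs) * K : ℕ) : ℤ) < (x i : ℤ) := by
      exact_mod_cast lt_of_lt_of_le e3 (hx i hi)
    have e5 : ((((ab α β).1.natAbs + (ab α β).2.natAbs) * K : ℕ) : ℤ) =
        (|(ab α β).1| + |(ab α β).2|) * (K : ℤ) := by
      push_cast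
      rfl
    rw [e5] at e4
    exact lt_of_lt_of_le e4 e1
  refine ⟨K2, by omega, ?_⟩
  intro x0 hx0
  have hKx : ∀ x : Fin n → ℕ, (∀ i ∈ I, K2 ≤ x i) → ∀ i ∈ I, K ≤ x i := fun x hx i hi =>
    le_trans (by omega) (hx i hi)
  have hcon : ∀ x : Fin n → ℕ, (∀ i ∈ I, K2 ≤ x i) → ∀ α ∈ E, α ∉ E' →
      clip K (frm α x) = clip K (frm α x0) := fun x hx α hα hn =>
    geo_const' I K α (hoff α hα) (fun h => hn (Finset.mem_filter.2 ⟨hα, h⟩)) x x0 (hKx x hx)
      (hKx x0 hx0)
  have hKz : (1 : ℤ) ≤ (K : ℤ) := by exact_mod_cast hK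
  by_cases hsm : ∃ α ∈ E', |frm α x0| < K
  · -- case 1
    obtain ⟨α, hα, hlt⟩ := hsm
    refine ⟨{(α, frm α x0), (-α, -frm α x0)}, ?_, ?_, ?_⟩
    · intro p hp i hi
      have e0 := hoff α (hE'E α hα) i hi
      simp only [Finset.mem_insert, Finset.mem_singleton] at hp
      rcases hp with rfl | rfl
      · exact e0
      · simp [e0]
    · intro p hp q hq hpq t _ hneg
      simp only [Finset.mem_insert, Finset.mem_singleton] at hp hq
      have e0 := geo_neg α t
      rcases hp with rfl | rfl <;> rcases hq with rfl | rfl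
      · exact hpq rfl
      · simp only at hneg
        omega
      · simp only at hneg
        omega
      · exact hpq rfl
    · intro x hx
      have hiff : (∀ p ∈ ({(α, frm α x0), (-α, -frm α x0)} : Finset ((Fin n → ℤ) × ℤ)),
          p.2 ≤ frm p.1 x) ↔ frm α x = frm α x0 := by
        have e0 := geo_neg α x
        constructor
        · intro h
          have h1 := h (α, frm α x0) (by simp)
          have h2 := h (-α, -frm α x0) (by simp)
          simp only at h1 h2
          omega
        · intro h p hp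
          simp only [Finset.mem_insert, Finset.mem_singleton] at hp
          rcases hp with rfl | rfl
          · simp only
            omega
          · simp only
            omega
      rw [hiff]
      have hlt' := abs_lt.1 hlt
      constructor
      · intro h
        have h1 := h α (hE'E α hα)
        simp only [clip] at h1
        omega
      · intro h β hβ
        by_cases hβα : β = α
        · rw [hβα, h]
        by_cases hβE : β ∈ E'
        swap
        · exact hcon x hx β hβ hβE
        have hne : α ≠ β := fun hh => hβα hh.symm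
        obtain ⟨ha, hb, _, _⟩ := hab α β hα hβE hne
        have u1 := hbd α hα β hβE hne x hx
        have u2 := hbd α hα β hβE hne x0 hx0
        set a := (ab α β).1
        set b := (ab α β).2
        have u3 : a * frm α x ≤ |a| * K := by
          have h1 : a * frm α x ≤ |a * frm α x| := le_abs_self _
          have h2 : |frm α x| < K := by rw [h]; exact hlt
          rw [abs_mul] at h1
          exact h1.trans (mul_le_mul_of_nonneg_left h2.le (abs_nonneg a))
        have u4 : a * frm α x0 ≤ |a| * K := by rw [h] at u3; exact u3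
        have v1 : |b| * K < b * frm β x := by
          have := add_mul |a| |b| (K : ℤ)
          linarith
        have v2 : |b| * K < b * frm β x0 := by
          have := add_mul |a| |b| (K : ℤ)
          linarith
        rcases lt_or_gt_of_ne hb with hb' | hb'
        · rw [abs_of_neg hb'] at v1 v2
          have w1 : frm β x < -K := by nlinarith
          have w2 : frm β x0 < -K := by nlinarith
          simp only [clip]
          omega
        · rw [abs_of_pos hb'] at v1 v2
          have w1 : (K : ℤ) < frm β x := lt_of_mul_lt_mul_left v1 hb'.le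
          have w2 : (K : ℤ) < frm β x0 := lt_of_mul_lt_mul_left v2 hb'.le
          simp only [clip]
          omega
  · -- case 2
    push Not at hsm
    set s : (Fin n → ℤ) → (Fin n → ℤ) := fun α => if 0 ≤ frm α x0 then α else -α with hs
    have hs0 : ∀ α ∈ E', (K : ℤ) ≤ frm (s α) x0 := by
      intro α hα
      have h1 := hsm α hα
      simp only [hs]
      split_ifs with h
      · rwa [abs_of_nonneg h] at h1
      · rw [geo_neg]
        rwa [abs_of_neg (not_le.1 h)] at h1
    have hcl : ∀ α ∈ E', ∀ x : Fin n → ℕ,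
        clip K (frm α x) = clip K (frm α x0) ↔ (K : ℤ) ≤ frm (s α) x := by
      intro α hα x
      have h1 := hs0 α hα
      simp only [hs] at h1 ⊢
      split_ifs at h1 ⊢ with h
      · simp only [clip]
        omega
      · rw [geo_neg] at h1 ⊢
        simp only [clip]
        omega
    have hsoff : ∀ α ∈ E', ∀ i, i ∉ I → s α i = 0 := by
      intro α hα i hi
      have e0 := hoff α (hE'E α hα) i hi
      simp only [hs]
      split_ifs
      · exact e0
      · simp [e0]
    -- the minimal subset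
    set good : Finset (Fin n → ℤ) → Prop := fun F => ∀ x : Fin n → ℕ, (∀ i ∈ I, K2 ≤ x i) →
      (∀ α ∈ F, (K : ℤ) ≤ frm (s α) x) → ∀ β ∈ E', (K : ℤ) ≤ frm (s β) x with hgood
    obtain ⟨F, hF, hFmin⟩ := Finset.exists_min_image (E'.powerset.filter good) Finset.card
      ⟨E', Finset.mem_filter.2 ⟨Finset.mem_powerset.2 (Finset.Subset.refl _), fun x _ h => h⟩⟩
    rw [Finset.mem_filter, Finset.mem_powerset] at hF
    obtain ⟨hFE, hFg⟩ := hF
    -- removing an element
    have hrem : ∀ α ∈ F, ∀ β ∈ F, α ≠ β → ¬ ∀ x : Fin n → ℕ, (∀ i ∈ I, K2 ≤ x i) →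
        (K : ℤ) ≤ frm (s α) x → (K : ℤ) ≤ frm (s β) x := by
      intro α hα β hβ hne himp
      have h1 : good (F.erase β) := by
        intro x hx h
        refine hFg x hx fun γ hγ => ?_
        by_cases hγβ : γ = β
        · rw [hγβ]
          exact himp x hx (h α (Finset.mem_erase.2 ⟨hne, hα⟩))
        · exact h γ (Finset.mem_erase.2 ⟨hγβ, hγ⟩)
      have h2 := hFmin (F.erase β) (Finset.mem_filter.2 ⟨Finset.mem_powerset.2
        ((Finset.erase_subset _ _).trans hFE), h1⟩)
      have h3 := Finset.card_erase_lt_of_mem hβ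
      omega
    refine ⟨F.image fun α => (s α, (K : ℤ)), ?_, ?_, ?_⟩
    · intro p hp i hi
      obtain ⟨α, hα, rfl⟩ := Finset.mem_image.1 hp
      exact hsoff α (hFE hα) i hi
    · intro p hp q hq hpq t _ hneg
      obtain ⟨α, hα, rfl⟩ := Finset.mem_image.1 hp
      obtain ⟨β, hβ, rfl⟩ := Finset.mem_image.1 hq
      simp only at hneg
      have hne : α ≠ β := by
        rintro rfl
        exact hpq rfl
      have hα' := hFE hα
      have hβ' := hFE hβ
      obtain ⟨ha, hb, hnn, _⟩ := hab α β hα' hβ' hne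
      have hB := hbd α hα' β hβ' hne
      -- signed coefficients
      obtain ⟨a, hA1, hA2, hA3⟩ : ∃ a : ℤ, |a| = |(ab α β).1| ∧ a ≠ 0 ∧
          ∀ x : Fin n → ℕ, (ab α β).1 * frm α x = a * frm (s α) x := by
        by_cases h : 0 ≤ frm α x0
        · exact ⟨(ab α β).1, rfl, ha, fun x => by simp only [hs, h, if_true]⟩
        · exact ⟨-(ab α β).1, abs_neg _, neg_ne_zero.2 ha, fun x => by
            simp only [hs, h, if_false, geo_neg]; ring⟩
      obtain ⟨b, hB1, hB2, hB3⟩ : ∃ b : ℤ, |b| = |(ab α β).2| ∧ b ≠ 0 ∧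
          ∀ x : Fin n → ℕ, (ab α β).2 * frm β x = b * frm (s β) x := by
        by_cases h : 0 ≤ frm β x0
        · exact ⟨(ab α β).2, rfl, hb, fun x => by simp only [hs, h, if_true]⟩
        · exact ⟨-(ab α β).2, abs_neg _, neg_ne_zero.2 hb, fun x => by
            simp only [hs, h, if_false, geo_neg]; ring⟩
      have hB' : ∀ x : Fin n → ℕ, (∀ i ∈ I, K2 ≤ x i) →
          (|a| + |b|) * (K : ℤ) < a * frm (s α) x + b * frm (s β) x := by
        intro x hx
        have := hB x hx
        rwa [hA3, hB3, ← hA1, ← hB1] at this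
      have hN : 0 ≤ a * frm (s α) t + b * frm (s β) t := by
        have := geo_nonneg (fun i => (ab α β).1 * α i + (ab α β).2 * β i) t hnn
        rwa [geo_lin, hA3, hB3] at this
      rcases lt_or_gt_of_ne hA2 with ha' | ha' <;> rcases lt_or_gt_of_ne hB2 with hb' | hb'
      · have h1 := hB' x0 hx0
        rw [abs_of_neg ha', abs_of_neg hb'] at h1
        have h2 := hs0 α hα'
        have h3 := hs0 β hβ'
        nlinarith
      · refine hrem α hα β hβ hne fun x hx hxα => ?_
        have h1 := hB' x hx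
        rw [abs_of_neg ha', abs_of_pos hb'] at h1
        have h2 : b * (K : ℤ) < b * frm (s β) x := by nlinarith
        exact (lt_of_mul_lt_mul_left h2 hb'.le).le
      · refine hrem β hβ α hα hne.symm fun x hx hxβ => ?_
        have h1 := hB' x hx
        rw [abs_of_pos ha', abs_of_neg hb'] at h1
        have h2 : a * (K : ℤ) < a * frm (s α) x := by nlinarith
        exact (lt_of_mul_lt_mul_left h2 ha'.le).le
      · nlinarith [hneg.1, hneg.2]
    · intro x hx
      constructor
      · intro h p hp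
        obtain ⟨α, hα, rfl⟩ := Finset.mem_image.1 hp
        exact (hcl α (hFE hα) x).1 (h α (hE'E α (hFE hα)))
      · intro h α hα
        by_cases hαE : α ∈ E'
        swap
        · exact hcon x hx α hα hαE
        refine (hcl α hαE x).2 (hFg x hx (fun γ hγ => ?_) α hαE)
        exact h (s γ, (K : ℤ)) (Finset.mem_image.2 ⟨γ, hγ, rfl⟩)

end Pool.Agent.Helper1.TW
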